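import Pool.Agent.K1H76.RG.Stm
import Pool.Agent.Erdos456.Mertens

/-!
# Piece A6 of the project RG: `L(1, χ)` as a short Euler product
-/

set_option autoImplicit false

namespace Pool.Agent.K1H30.RG

open Filter Finset Topology
open Pool.Agent.K1H76.RG

/-! ## Logarithms -/

lemma abs_log_sub {u v m : ℝ} (hm : 0 < m) (hu : m ≤ u) (hv : m ≤ v) :
    |Real.log u - Real.log v| ≤ |u - v| / m := by
  have key : ∀ a b : ℝ, m ≤ a → m ≤ b → Real.log a - Real.log b ≤ |a - b| / m := by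
    intro a b ha hb
    have ha0 : 0 < a := hm.trans_le ha
    have hb0 : 0 < b := hm.trans_le hb
    rw [← Real.log_div ha0.ne' hb0.ne']
    calc Real.log (a / b) ≤ a / b - 1 := Real.log_le_sub_one_of_pos (by positivity)
      _ = (a - b) / b := by field_simp
      _ ≤ |a - b| / b := by gcongr; exact le_abs_self _
      _ ≤ |a - b| / m := by gcongr
  rw [abs_le]
  constructor
  · have := key v u hv hu
    rw [abs_sub_comm] at this
    linarith
  · exact key u v hu hv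

lemma norm_one_sub_ge {z : ℂ} (hz : ‖z‖ ≤ 1 / 2) : (1 : ℝ) / 2 ≤ ‖1 - z‖ := by
  have := norm_sub_norm_le (1 : ℂ) z
  simp only [norm_one] at this
  linarith

lemma abs_log_norm_sub {z w : ℂ} (hz : ‖z‖ ≤ 1 / 2) (hw : ‖w‖ ≤ 1 / 2) :
    |Real.log ‖1 - z‖ - Real.log ‖1 - w‖| ≤ 2 * ‖z - w‖ := by
  have h := abs_log_sub (m := 1 / 2) (by norm_num) (norm_one_sub_ge hz) (norm_one_sub_ge hw)
  have h2 : |‖1 - z‖ - ‖1 - w‖| ≤ ‖z - w‖ := by
    have := abs_norm_sub_norm_le (1 - z) (1 - w)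
    have e : (1 - z) - (1 - w) = -(z - w) := by ring
    rwa [e, norm_neg] at this
  have h3 : |‖1 - z‖ - ‖1 - w‖| / (1 / 2) = 2 * |‖1 - z‖ - ‖1 - w‖| := by ring
  rw [h3] at h
  linarith

lemma abs_log_norm {z : ℂ} (hz : ‖z‖ ≤ 1 / 2) : |Real.log ‖1 - z‖| ≤ 2 * ‖z‖ := by
  have := abs_log_norm_sub (w := 0) hz (by simp)
  simpa using this

lemma log_norm_le {z : ℂ} (hz : ‖z‖ ≤ 1 / 2) : Real.log ‖1 - z‖ ≤ ‖z‖ := by
  have h0 : 0 < ‖1 - z‖ := lt_of_lt_of_le (by norm_num) (norm_one_sub_ge hz)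
  have h1 := Real.log_le_sub_one_of_pos h0
  have h2 : ‖1 - z‖ ≤ ‖(1 : ℂ)‖ + ‖z‖ := norm_sub_le _ _
  rw [norm_one] at h2
  linarith

lemma abs_log_norm_add_re {z : ℂ} (hz : ‖z‖ ≤ 1 / 2) : |Real.log ‖1 - z‖ + z.re| ≤ ‖z‖ ^ 2 := by
  have h := Complex.norm_log_one_add_sub_self_le (z := -z) (by rw [norm_neg]; linarith)
  rw [norm_neg] at h
  have h1 : |(Complex.log (1 + -z) - -z).re| ≤ ‖Complex.log (1 + -z) - -z‖ :=
    Complex.abs_re_le_norm _
  have h2 : (Complex.log (1 + -z) - -z).re = Real.log ‖1 - z‖ + z.re := by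
    simp [Complex.log_re, sub_eq_add_neg]
  rw [h2] at h1
  refine h1.trans (h.trans ?_)
  have h3 : (1 - ‖z‖)⁻¹ ≤ 2 := by
    rw [inv_le_comm₀ (by linarith) (by norm_num)]
    linarith
  have h0 := sq_nonneg ‖z‖
  nlinarith

/-! ## Sums of powers -/

lemma tele {δ : ℝ} (hδ : 0 < δ) {n : ℕ} (hn : 1 ≤ n) :
    ((n + 1 : ℕ) : ℝ) ^ (-(1 + δ)) ≤ ((n : ℝ) ^ (-δ) - ((n + 1 : ℕ) : ℝ) ^ (-δ)) / δ := by
  have hn0 : (0 : ℝ) < n := by exact_mod_cast hn
  set m : ℝ := ((n + 1 : ℕ) : ℝ) with hm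
  have hmn : m = n + 1 := by rw [hm]; push_cast; ring
  have hm0 : 0 < m := by rw [hmn]; positivity
  rw [le_div_iff₀ hδ]
  have e1 : m ^ (-(1 + δ)) = m ^ (-δ) * m⁻¹ := by
    rw [show -(1 + δ) = -δ + -1 by ring, Real.rpow_add hm0, Real.rpow_neg_one]
  have e2 : m ^ (-δ) * (1 + δ * m⁻¹) ≤ (n : ℝ) ^ (-δ) := by
    have h1 : (n : ℝ) = m * (1 - m⁻¹) := by
      rw [mul_sub, mul_inv_cancel₀ hm0.ne', hmn]; ring
    have h2 : 0 < 1 - m⁻¹ := by
      have : m⁻¹ < 1 := by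
        rw [inv_lt_one₀ hm0, hmn]; linarith
      linarith
    rw [h1, Real.mul_rpow hm0.le h2.le]
    refine mul_le_mul_of_nonneg_left ?_ (by positivity)
    rw [Real.rpow_def_of_pos h2]
    have h3 : Real.log (1 - m⁻¹) ≤ -m⁻¹ := by
      have := Real.log_le_sub_one_of_pos h2
      linarith
    have h4 : δ * m⁻¹ ≤ Real.log (1 - m⁻¹) * -δ := by nlinarith
    calc 1 + δ * m⁻¹ ≤ Real.exp (δ * m⁻¹) := by
          have := Real.add_one_le_exp (δ * m⁻¹); linarith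
      _ ≤ _ := Real.exp_le_exp.2 h4
  rw [e1]
  nlinarith

lemma tail_sum {δ : ℝ} (hδ : 0 < δ) {a : ℕ} (ha : 1 ≤ a) (N : ℕ) :
    ∑ n ∈ Ioc a N, (n : ℝ) ^ (-(1 + δ)) ≤ (a : ℝ) ^ (-δ) / δ := by
  have key : ∀ N : ℕ, a ≤ N →
      ∑ n ∈ Ioc a N, (n : ℝ) ^ (-(1 + δ)) ≤ ((a : ℝ) ^ (-δ) - (N : ℝ) ^ (-δ)) / δ := by
    intro N hN
    induction N, hN using Nat.le_induction with
    | base => simp
    | succ N hN ih =>
      rw [← Finset.insert_Ioc_right_eq_Ioc_add_one hN, sum_insert (by simp)]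
      have := tele hδ (ha.trans hN)
      calc _ ≤ ((N : ℝ) ^ (-δ) - ((N + 1 : ℕ) : ℝ) ^ (-δ)) / δ +
            ((a : ℝ) ^ (-δ) - (N : ℝ) ^ (-δ)) / δ := add_le_add this ih
        _ = _ := by ring
  rcases le_total a N with h | h
  · refine (key N h).trans ?_
    gcongr
    have : (0 : ℝ) ≤ (N : ℝ) ^ (-δ) := by positivity
    linarith
  · rw [Finset.Ioc_eq_empty (by omega)]
    simp only [sum_empty]
    positivity

lemma sum_Pr_inv_le (Y : ℕ) : ∑ q ∈ Pr Y, (1 : ℝ) / q ≤ 1 + Real.log Y := by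
  have h := harmonic_le_one_add_log Y
  refine le_trans ?_ h
  rw [harmonic_eq_sum_Icc]
  push_cast
  refine (sum_le_sum_of_subset_of_nonneg (t := Icc 1 Y) ?_ fun i _ _ => by positivity).trans
    (le_of_eq (sum_congr rfl fun i _ => by rw [one_div]))
  intro q hq
  simp only [Pr, mem_filter, mem_range] at hq
  simp only [mem_Icc]
  exact ⟨hq.2.one_le, by omega⟩

/-- an upper bound of Mertens -/
lemma sum_Pr_inv_le' : ∃ C : ℝ, 0 ≤ C ∧ ∀ Y : ℕ, 3 ≤ Y →
    ∑ q ∈ Pr Y, (1 : ℝ) / q ≤ Real.log (Real.log Y) + C := by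
  obtain ⟨C, hC⟩ := Pool.Agent.Erdos456.Mert.mertens_inv
  refine ⟨|C|, abs_nonneg _, fun Y hY => ?_⟩
  have h := hC Y hY
  have e : Pr Y = (Finset.Icc 1 Y).filter Nat.Prime := by
    ext q
    simp only [Pr, mem_filter, mem_range, mem_Icc]
    constructor
    · rintro ⟨h1, h2⟩; exact ⟨⟨h2.one_le, by omega⟩, h2⟩
    · rintro ⟨h1, h2⟩; exact ⟨by omega, h2⟩
  rw [e]
  have h2 := (abs_le.1 h).2
  have := le_abs_self C
  linarith

/-! ## The Euler factors -/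

/-- `χ(q) q^{-s}` -/
noncomputable def zz {p : ℕ} (χ : DirichletCharacter ℂ p) (s : ℝ) (q : ℕ) : ℂ :=
  χ (q : ZMod p) * (((q : ℝ) ^ (-s) : ℝ) : ℂ)

variable {p : ℕ} (χ : DirichletCharacter ℂ p)

lemma norm_zz_le (s : ℝ) (q : ℕ) : ‖zz χ s q‖ ≤ (q : ℝ) ^ (-s) := by
  rw [zz, norm_mul, Complex.norm_real, Real.norm_of_nonneg (by positivity)]
  exact mul_le_of_le_one_left (by positivity) (χ.norm_le_one _)

lemma norm_zz_le_inv {s : ℝ} (hs : 1 ≤ s) {q : ℕ} (hq : 1 ≤ q) : ‖zz χ s q‖ ≤ 1 / q := by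
  refine (norm_zz_le χ s q).trans ?_
  have h1 : (1 : ℝ) ≤ q := by exact_mod_cast hq
  calc (q : ℝ) ^ (-s) ≤ (q : ℝ) ^ (-1 : ℝ) := Real.rpow_le_rpow_of_exponent_le h1 (by linarith)
    _ = 1 / q := by rw [Real.rpow_neg_one, one_div]

lemma norm_zz_le_half {s : ℝ} (hs : 1 ≤ s) {q : ℕ} (hq : q.Prime) : ‖zz χ s q‖ ≤ 1 / 2 := by
  refine (norm_zz_le_inv χ hs hq.one_le).trans ?_
  have h1 : (2 : ℝ) ≤ q := by exact_mod_cast hq.two_le
  exact one_div_le_one_div_of_le (by norm_num) h1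

lemma zz_one (q : ℕ) : zz χ 1 q = χ (q : ZMod p) / (q : ℂ) := by
  rw [zz, Real.rpow_neg_one]
  push_cast
  rw [div_eq_mul_inv]

lemma norm_zz_sub_le {δ : ℝ} (hδ : 0 ≤ δ) {q : ℕ} (hq : 1 ≤ q) :
    ‖zz χ (1 + δ) q - zz χ 1 q‖ ≤ δ * Real.log q * (1 / q) := by
  have h1 : (1 : ℝ) ≤ q := by exact_mod_cast hq
  have hq0 : (0 : ℝ) < q := by linarith
  have e : zz χ (1 + δ) q - zz χ 1 q =
      χ (q : ZMod p) * (((q : ℝ) ^ (-(1 + δ)) - (q : ℝ) ^ (-1 : ℝ) : ℝ) : ℂ) := by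
    rw [zz, zz]; push_cast; ring
  rw [e, norm_mul, Complex.norm_real]
  refine (mul_le_of_le_one_left (norm_nonneg _) (χ.norm_le_one _)).trans ?_
  rw [Real.norm_eq_abs, show -(1 + δ) = -δ + -1 by ring, Real.rpow_add hq0, Real.rpow_neg_one,
    abs_le]
  have h2 : 1 - δ * Real.log q ≤ (q : ℝ) ^ (-δ) := by
    rw [Real.rpow_def_of_pos hq0]
    have := Real.add_one_le_exp (Real.log q * -δ)
    linarith
  have h3 : (q : ℝ) ^ (-δ) ≤ 1 := Real.rpow_le_one_of_one_le_of_nonpos h1 (by linarith)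
  have h4 : 0 < (q : ℝ)⁻¹ := by positivity
  have h5 : 0 ≤ Real.log q := Real.log_nonneg h1
  rw [one_div]
  constructor
  · nlinarith
  · have : 0 ≤ δ * Real.log q := by positivity
    nlinarith

/-- (i) small primes -/
lemma part1 {δ : ℝ} (hδ : 0 ≤ δ) {Y : ℕ} (hY : 1 ≤ Y) :
    |∑ q ∈ Pr Y, Real.log ‖1 - zz χ (1 + δ) q‖ - ∑ q ∈ Pr Y, Real.log ‖1 - zz χ 1 q‖| ≤
      2 * δ * Real.log Y * (1 + Real.log Y) := by
  rw [← sum_sub_distrib]
  refine (abs_sum_le_sum_abs _ _).trans ?_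
  have hY1 : (1 : ℝ) ≤ Y := by exact_mod_cast hY
  have hlY : 0 ≤ Real.log Y := Real.log_nonneg hY1
  calc ∑ q ∈ Pr Y, |Real.log ‖1 - zz χ (1 + δ) q‖ - Real.log ‖1 - zz χ 1 q‖|
      ≤ ∑ q ∈ Pr Y, 2 * δ * Real.log Y * (1 / q) := by
        refine sum_le_sum fun q hq => ?_
        simp only [Pr, mem_filter, mem_range] at hq
        have h1 := abs_log_norm_sub (norm_zz_le_half χ (s := 1 + δ) (by linarith) hq.2)
          (norm_zz_le_half χ (s := 1) le_rfl hq.2)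
        have h2 := norm_zz_sub_le χ hδ hq.2.one_le
        have h3 : Real.log q ≤ Real.log Y :=
          Real.log_le_log (by exact_mod_cast hq.2.pos) (by exact_mod_cast (by omega : q ≤ Y))
        have h4 : (0 : ℝ) ≤ 1 / q := by positivity
        have h5 : δ * Real.log q * (1 / q) ≤ δ * Real.log Y * (1 / q) := by gcongr
        linarith
    _ = 2 * δ * Real.log Y * ∑ q ∈ Pr Y, (1 : ℝ) / q := by rw [mul_sum]
    _ ≤ _ := mul_le_mul_of_nonneg_left (sum_Pr_inv_le Y) (by positivity)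

/-- (ii) middle primes -/
lemma part2 {s : ℝ} (hs : 1 ≤ s) {Y Z : ℕ} (hY : 1 ≤ Y) (hYZ : Y ≤ Z) :
    |∑ q ∈ (Ioc Y Z).filter Nat.Prime, Real.log ‖1 - zz χ s q‖ +
      (∑ q ∈ (Ioc Y Z).filter Nat.Prime, zz χ s q).re| ≤ 1 / Y := by
  rw [Complex.re_sum, ← sum_add_distrib]
  refine (abs_sum_le_sum_abs _ _).trans ?_
  calc ∑ q ∈ (Ioc Y Z).filter Nat.Prime, |Real.log ‖1 - zz χ s q‖ + (zz χ s q).re|
      ≤ ∑ q ∈ (Ioc Y Z).filter Nat.Prime, ((q : ℝ) ^ 2)⁻¹ := by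
        refine sum_le_sum fun q hq => ?_
        simp only [mem_filter, mem_Ioc] at hq
        refine (abs_log_norm_add_re (norm_zz_le_half χ hs hq.2)).trans ?_
        have := norm_zz_le_inv χ hs hq.2.one_le
        calc ‖zz χ s q‖ ^ 2 ≤ (1 / (q : ℝ)) ^ 2 := by gcongr
          _ = _ := by rw [one_div, inv_pow]
    _ ≤ ∑ q ∈ Ioc Y Z, ((q : ℝ) ^ 2)⁻¹ :=
        sum_le_sum_of_subset_of_nonneg (filter_subset _ _) fun i _ _ => by positivity
    _ ≤ (Y : ℝ)⁻¹ - (Z : ℝ)⁻¹ := sum_Ioc_inv_sq_le_sub (by omega) hYZ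
    _ ≤ 1 / Y := by
        rw [one_div]
        have : (0 : ℝ) ≤ (Z : ℝ)⁻¹ := by positivity
        linarith

lemma Pr_split {Y Z : ℕ} (hYZ : Y ≤ Z) (f : ℕ → ℝ) :
    ∑ q ∈ Pr Z, f q = ∑ q ∈ Pr Y, f q + ∑ q ∈ (Ioc Y Z).filter Nat.Prime, f q := by
  rw [← sum_union]
  · congr 1
    ext q
    simp only [Pr, mem_filter, mem_range, mem_union, mem_Ioc]
    constructor
    · rintro ⟨h1, h2⟩
      rcases le_or_gt q Y with h | h
      · exact Or.inl ⟨by omega, h2⟩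
      · exact Or.inr ⟨⟨h, by omega⟩, h2⟩
    · rintro (⟨h1, h2⟩ | ⟨⟨h1, h2⟩, h3⟩)
      · exact ⟨by omega, h2⟩
      · exact ⟨by omega, h3⟩
  · rw [Finset.disjoint_left]
    intro q hq hq'
    simp only [Pr, mem_filter, mem_range, mem_Ioc] at hq hq'
    omega

/-- (iii) large primes -/
lemma part3 [NeZero p] {δ : ℝ} (hδ : 0 < δ) {Z : ℕ} (hZ : 1 ≤ Z) :
    |Real.log ‖DirichletCharacter.LFunction χ ((1 + δ : ℝ) : ℂ)‖ +
      ∑ q ∈ Pr Z, Real.log ‖1 - zz χ (1 + δ) q‖| ≤ 2 * ((Z : ℝ) ^ (-δ) / δ) := by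
  have hs : 1 < (((1 + δ : ℝ) : ℂ)).re := by simp [hδ]
  have h1 := DirichletCharacter.LSeries_eulerProduct χ hs
  rw [← DirichletCharacter.LFunction_eq_LSeries χ hs] at h1
  have hne : DirichletCharacter.LFunction χ ((1 + δ : ℝ) : ℂ) ≠ 0 := by
    rw [DirichletCharacter.LFunction_eq_LSeries χ hs]
    exact DirichletCharacter.LSeries_ne_zero_of_one_lt_re χ hs
  have h2 := ((Real.continuousAt_log (norm_ne_zero_iff.2 hne)).tendsto.comp h1.norm).comp
    (tendsto_add_atTop_nat 1)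
  have h3 : ∀ n : ℕ, (Real.log ∘ fun n => ‖∏ q ∈ Nat.primesBelow n,
      (1 - χ (q : ZMod p) * (q : ℂ) ^ (-((1 + δ : ℝ) : ℂ)))⁻¹‖) (n + 1) =
      - ∑ q ∈ Pr n, Real.log ‖1 - zz χ (1 + δ) q‖ := by
    intro n
    have e : Nat.primesBelow (n + 1) = Pr n := rfl
    simp only [Function.comp]
    rw [e, norm_prod, Real.log_prod, ← sum_neg_distrib]
    · refine sum_congr rfl fun q hq => ?_
      simp only [Pr, mem_filter, mem_range] at hq
      rw [norm_inv, Real.log_inv, zz, Complex.ofReal_cpow (by positivity)]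
      push_cast
      rfl
    · intro q hq
      simp only [Pr, mem_filter, mem_range] at hq
      rw [norm_inv]
      have h := norm_one_sub_ge (norm_zz_le_half χ (s := 1 + δ) (by linarith) hq.2)
      rw [zz, Complex.ofReal_cpow (by positivity)] at h
      push_cast at h ⊢
      exact inv_ne_zero (by linarith)
  have h4 : Tendsto (fun n : ℕ => - ∑ q ∈ Pr n, Real.log ‖1 - zz χ (1 + δ) q‖) atTop
      (𝓝 (Real.log ‖DirichletCharacter.LFunction χ ((1 + δ : ℝ) : ℂ)‖)) :=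
    h2.congr h3
  have h5 := (h4.add_const (∑ q ∈ Pr Z, Real.log ‖1 - zz χ (1 + δ) q‖)).abs
  refine le_of_tendsto h5 ?_
  filter_upwards [eventually_ge_atTop Z] with N hN
  rw [Pr_split hN, neg_add, add_comm, ← add_assoc, add_neg_cancel, zero_add, abs_neg]
  refine (abs_sum_le_sum_abs _ _).trans ?_
  calc ∑ q ∈ (Ioc Z N).filter Nat.Prime, |Real.log ‖1 - zz χ (1 + δ) q‖|
      ≤ ∑ q ∈ (Ioc Z N).filter Nat.Prime, 2 * (q : ℝ) ^ (-(1 + δ)) := by
        refine sum_le_sum fun q hq => ?_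
        simp only [mem_filter, mem_Ioc] at hq
        refine (abs_log_norm (norm_zz_le_half χ (by linarith) hq.2)).trans ?_
        have := norm_zz_le χ (1 + δ) q
        linarith
    _ ≤ ∑ q ∈ Ioc Z N, 2 * (q : ℝ) ^ (-(1 + δ)) :=
        sum_le_sum_of_subset_of_nonneg (filter_subset _ _) fun i _ _ => by positivity
    _ = 2 * ∑ q ∈ Ioc Z N, (q : ℝ) ^ (-(1 + δ)) := by rw [mul_sum]
    _ ≤ _ := by
        have := tail_sum hδ hZ N
        linarith

/-- the deterministic statement -/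
lemma main [NeZero p] {δ η r C1 : ℝ} (hδ : 0 < δ) {Y Z : ℕ} (hY : 3 ≤ Y) (hYZ : Y ≤ Z)
    (hC1 : ∑ q ∈ Pr Y, (1 : ℝ) / q ≤ Real.log (Real.log Y) + C1)
    (h3 : 2 * ((Z : ℝ) ^ (-δ) / δ) ≤ 1) (hη1 : η ≤ 1)
    (hη : ‖∑ q ∈ (Ioc Y Z).filter Nat.Prime, zz χ (1 + δ) q‖ ≤ η)
    (hr : ‖DirichletCharacter.LFunction χ ((1 + δ : ℝ) : ℂ) - DirichletCharacter.LFunction χ 1‖ ≤ r)
    (hr2 : r * (Real.exp (C1 + 3) * Real.log Y) ≤ 1 / 2) :
    |Real.log ‖DirichletCharacter.LFunction χ 1‖ +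
      ∑ q ∈ Pr Y, Real.log ‖1 - zz χ 1 q‖| ≤
      2 * (r * (Real.exp (C1 + 3) * Real.log Y)) + 2 * ((Z : ℝ) ^ (-δ) / δ) + η + 1 / Y +
        2 * δ * Real.log Y * (1 + Real.log Y) := by
  have p1 := part1 χ hδ.le (show 1 ≤ Y by omega)
  have p2 := part2 χ (s := 1 + δ) (by linarith) (show 1 ≤ Y by omega) hYZ
  have p3 := part3 χ hδ (show 1 ≤ Z by omega)
  rw [Pr_split hYZ] at p3
  have p4 : |(∑ q ∈ (Ioc Y Z).filter Nat.Prime, zz χ (1 + δ) q).re| ≤ η :=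
    (Complex.abs_re_le_norm _).trans hη
  set L1 := DirichletCharacter.LFunction χ 1 with hL1
  set Lσ := DirichletCharacter.LFunction χ ((1 + δ : ℝ) : ℂ) with hLσ
  set S := ∑ q ∈ Pr Y, Real.log ‖1 - zz χ (1 + δ) q‖ with hS
  set S1 := ∑ q ∈ Pr Y, Real.log ‖1 - zz χ 1 q‖ with hS1
  set M := ∑ q ∈ (Ioc Y Z).filter Nat.Prime, Real.log ‖1 - zz χ (1 + δ) q‖ with hM
  set R := (∑ q ∈ (Ioc Y Z).filter Nat.Prime, zz χ (1 + δ) q).re with hR
  have hY3 : (3 : ℝ) ≤ Y := by exact_mod_cast hY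
  have hlY : 1 < Real.log Y := by
    have h1 : Real.exp 1 < 3 := by have := Real.exp_one_lt_d9; linarith
    rw [Real.lt_log_iff_exp_lt (by linarith)]
    linarith
  -- upper bound of `S`
  have hSle : S ≤ Real.log (Real.log Y) + C1 := by
    refine le_trans ?_ hC1
    refine sum_le_sum fun q hq => ?_
    simp only [Pr, mem_filter, mem_range] at hq
    exact (log_norm_le (norm_zz_le_half χ (by linarith) hq.2)).trans
      (norm_zz_le_inv χ (by linarith) hq.2.one_le)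
  have hY1 : 1 / (Y : ℝ) ≤ 1 := by
    rw [div_le_one (by linarith)]; linarith
  rw [abs_le] at p1 p2 p3 p4
  have hlow : -(Real.log (Real.log Y) + (C1 + 3)) ≤ Real.log ‖Lσ‖ := by
    linarith [p1.1, p2.1, p2.2, p3.1, p3.2, p4.1, p4.2]
  have hLσ0 : Lσ ≠ 0 := by
    have hs : 1 < (((1 + δ : ℝ) : ℂ)).re := by simp [hδ]
    rw [hLσ, DirichletCharacter.LFunction_eq_LSeries χ hs]
    exact DirichletCharacter.LSeries_ne_zero_of_one_lt_re χ hs
  have hn0 : 0 < ‖Lσ‖ := norm_pos_iff.2 hLσ0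
  set T : ℝ := Real.exp (C1 + 3) * Real.log Y with hT
  have hT0 : 0 < T := by positivity
  have hlow2 : 1 / T ≤ ‖Lσ‖ := by
    have h1 : 1 / T = Real.exp (-(Real.log (Real.log Y) + (C1 + 3))) := by
      rw [hT, Real.exp_neg, Real.exp_add (Real.log (Real.log Y)), Real.exp_log (by linarith),
        one_div, mul_comm]
    rw [h1, ← Real.exp_log hn0]
    exact Real.exp_le_exp.2 hlow
  have hr3 : r ≤ 1 / (2 * T) := by
    rw [le_div_iff₀ (by positivity)]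
    linarith
  have hm : 1 / (2 * T) ≤ ‖L1‖ := by
    have h1 := norm_sub_norm_le Lσ L1
    have h2 : 1 / T = 1 / (2 * T) + 1 / (2 * T) := by field_simp; norm_num
    linarith
  have hm2 : 1 / (2 * T) ≤ ‖Lσ‖ := by
    refine le_trans ?_ hlow2
    exact one_div_le_one_div_of_le hT0 (by linarith)
  have hfin := abs_log_sub (m := 1 / (2 * T)) (by positivity) hm hm2
  have hfin2 : |‖L1‖ - ‖Lσ‖| ≤ r := by
    rw [abs_sub_comm]
    exact (abs_norm_sub_norm_le _ _).trans hr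
  have hfin3 : |‖L1‖ - ‖Lσ‖| / (1 / (2 * T)) ≤ 2 * (r * T) := by
    rw [div_le_iff₀ (by positivity)]
    calc |‖L1‖ - ‖Lσ‖| ≤ r := hfin2
      _ = 2 * (r * T) * (1 / (2 * T)) := by field_simp
  have hfin4 := hfin.trans hfin3
  rw [abs_le] at hfin4 ⊢
  constructor
  · linarith [p1.1, p1.2, p2.1, p2.2, p3.1, p3.2, p4.1, p4.2, hfin4.1, hfin4.2]
  · linarith [p1.1, p1.2, p2.1, p2.2, p3.1, p3.2, p4.1, p4.2, hfin4.1, hfin4.2]

/-- **A6** -/
theorem t_EUL (h : S_LSP) (h1 : S_LONE) : S_EUL := by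
  obtain ⟨A, hA1, hA⟩ := h
  obtain ⟨C, hC0, hC⟩ := h1
  obtain ⟨C1, hC10, hC1⟩ := sum_Pr_inv_le'
  refine ⟨A, hA1, fun B hB η hη => ?_⟩
  have hB1 : 1 ≤ B := hA1.trans hB
  set η' : ℝ := min 1 (η / 5) with hη'
  have hη'0 : 0 < η' := by rw [hη']; positivity
  -- all errors are at most `K / log x`
  set K : ℝ := 4 * B ^ 2 + 36 + 2 * (C * Real.exp (C1 + 3) * B) + 1 with hK
  have hK0 : 0 < K := by positivity
  have hlog : Tendsto (fun x : ℕ => Real.log x) atTop atTop :=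
    Real.tendsto_log_atTop.comp tendsto_natCast_atTop_atTop
  filter_upwards [hA B hB η' hη'0, hlog.eventually_ge_atTop (max (max 3 B) (K / η'))] with x hx hL
  intro Y hY1 hY2
  obtain ⟨Exc, hE1, hE2⟩ := hx Y hY1 hY2
  refine ⟨Exc, hE1, fun p hp hpx hpE χ hχ _ => ?_⟩
  set L := Real.log x with hLdef
  have hL3 : 3 ≤ L := (le_max_left 3 B).trans ((le_max_left _ _).trans hL)
  have hLB : B ≤ L := (le_max_right 3 B).trans ((le_max_left _ _).trans hL)
  have hLK : K / L ≤ η' := by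
    have : K / η' ≤ L := (le_max_right _ _).trans hL
    rw [div_le_iff₀ hη'0] at this
    rw [div_le_iff₀ (by linarith)]
    linarith
  have hL0 : 0 < L := by linarith
  have hL1 : 1 ≤ L := by linarith
  -- `Y`
  have hYL : L ≤ Y := by
    refine le_trans ?_ hY1
    calc L = L ^ (1 : ℝ) := (Real.rpow_one L).symm
      _ ≤ L ^ A := Real.rpow_le_rpow_of_exponent_le hL1 hA1
  have hY3 : 3 ≤ Y := by exact_mod_cast hL3.trans hYL
  have hY0 : (0 : ℝ) < Y := by linarith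
  have hlogL : Real.log L ≤ L := (Real.log_le_sub_one_of_pos hL0).trans (by linarith)
  have hlogY : Real.log Y ≤ B * L := by
    calc Real.log Y ≤ Real.log (L ^ B) := Real.log_le_log hY0 hY2
      _ = B * Real.log L := Real.log_rpow hL0 B
      _ ≤ B * L := by gcongr
  have hlogY0 : 0 ≤ Real.log Y := Real.log_nonneg (by linarith)
  -- `Z`
  set Z := ⌊Real.exp (L ^ 6)⌋₊ with hZ
  have hYZ : Y ≤ Z := by
    rw [hZ]
    refine Nat.le_floor ?_
    refine hY2.trans ?_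
    rw [Real.rpow_def_of_pos hL0]
    refine Real.exp_le_exp.2 ?_
    calc Real.log L * B ≤ L * L := by
          refine mul_le_mul hlogL hLB (by linarith) hL0.le
      _ = L ^ 2 := by ring
      _ ≤ L ^ 6 := pow_le_pow_right₀ hL1 (by norm_num)
  set δ : ℝ := 1 / L ^ 4 with hδ
  have hδ0 : 0 < δ := by positivity
  have hδ1 : δ ≤ 1 := by
    rw [hδ, div_le_one (by positivity)]
    exact one_le_pow₀ hL1
  -- (iii)
  have e3 : 2 * ((Z : ℝ) ^ (-δ) / δ) ≤ 36 / L := by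
    have h1 : Real.exp (L ^ 6 - 1) ≤ Z := by
      have h2 := Nat.lt_floor_add_one (Real.exp (L ^ 6))
      rw [← hZ] at h2
      have h3 : Real.exp (L ^ 6 - 1) * 2 ≤ Real.exp (L ^ 6) := by
        have h4 : Real.exp (L ^ 6) = Real.exp (L ^ 6 - 1) * Real.exp 1 := by
          rw [← Real.exp_add]; ring_nf
        rw [h4]
        have := Real.add_one_le_exp (1 : ℝ)
        have h5 := Real.exp_pos (L ^ 6 - 1)
        nlinarith
      have h6 : 1 ≤ Real.exp (L ^ 6 - 1) := by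
        apply Real.one_le_exp
        have : 1 ≤ L ^ 6 := one_le_pow₀ hL1
        linarith
      linarith
    have h2 : (Z : ℝ) ^ (-δ) ≤ Real.exp (1 - L ^ 2) := by
      calc (Z : ℝ) ^ (-δ) ≤ (Real.exp (L ^ 6 - 1)) ^ (-δ) :=
            Real.rpow_le_rpow_of_nonpos (Real.exp_pos _) h1 (by linarith)
        _ = Real.exp (-(L ^ 6 * δ) + δ) := by rw [← Real.exp_mul]; ring_nf
        _ ≤ Real.exp (1 - L ^ 2) := by
          refine Real.exp_le_exp.2 ?_
          have : L ^ 6 * δ = L ^ 2 := by rw [hδ]; field_simp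
          rw [this]
          linarith
    have h3 : Real.exp (1 - L ^ 2) ≤ 18 / L ^ 6 := by
      have h4 := Real.pow_div_factorial_le_exp (L ^ 2) (by positivity) 3
      have h5 : (L ^ 2) ^ 3 / (Nat.factorial 3 : ℝ) = L ^ 6 / 6 := by
        norm_num [Nat.factorial]
        ring
      rw [h5] at h4
      rw [Real.exp_sub, div_le_div_iff₀ (Real.exp_pos _) (by positivity)]
      have h6 : Real.exp 1 < 3 := by have := Real.exp_one_lt_d9; linarith
      have h7 : 0 < L ^ 6 := by positivity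
      nlinarith
    calc 2 * ((Z : ℝ) ^ (-δ) / δ) ≤ 2 * ((18 / L ^ 6) / δ) := by
          gcongr
          exact h2.trans h3
      _ = 36 / L ^ 2 := by rw [hδ]; field_simp; norm_num
      _ ≤ 36 / L := by
        apply div_le_div_of_nonneg_left (by norm_num) hL0
        nlinarith
  -- (i)
  have e1 : 2 * δ * Real.log Y * (1 + Real.log Y) ≤ 4 * B ^ 2 / L := by
    have h1 : Real.log Y * (1 + Real.log Y) ≤ (B * L) * (2 * (B * L)) := by
      refine mul_le_mul hlogY ?_ (by linarith) (by positivity)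
      have : 1 ≤ B * L := by nlinarith
      linarith
    calc 2 * δ * Real.log Y * (1 + Real.log Y) = 2 * δ * (Real.log Y * (1 + Real.log Y)) := by ring
      _ ≤ 2 * δ * ((B * L) * (2 * (B * L))) := by gcongr
      _ = 4 * B ^ 2 / L ^ 2 := by rw [hδ]; field_simp; norm_num
      _ ≤ 4 * B ^ 2 / L := by
        apply div_le_div_of_nonneg_left (by positivity) hL0
        nlinarith
  -- (ii)
  have e2 : 1 / (Y : ℝ) ≤ 1 / L := one_div_le_one_div_of_le hL0 hYL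
  -- (iv)
  have e4 : (C / L ^ 2) * (Real.exp (C1 + 3) * Real.log Y) ≤ C * Real.exp (C1 + 3) * B / L := by
    calc (C / L ^ 2) * (Real.exp (C1 + 3) * Real.log Y)
        ≤ (C / L ^ 2) * (Real.exp (C1 + 3) * (B * L)) := by gcongr
      _ = C * Real.exp (C1 + 3) * B / L := by field_simp
  have hsum : 4 * B ^ 2 / L + 36 / L + 2 * (C * Real.exp (C1 + 3) * B) / L + 1 / L = K / L := by
    rw [hK]; ring
  have q1 : 0 ≤ 4 * B ^ 2 / L := by positivity
  have q2 : 0 ≤ 36 / L := by positivity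
  have q3 : 0 ≤ 2 * (C * Real.exp (C1 + 3) * B) / L := by positivity
  have q4 : 0 ≤ 1 / L := by positivity
  have hη1 : η' ≤ 1 := min_le_left _ _
  have hη5 : η' ≤ η / 5 := min_le_right _ _
  have q5 : 2 * (C * Real.exp (C1 + 3) * B / L) = 2 * (C * Real.exp (C1 + 3) * B) / L := by ring
  have hr : ‖DirichletCharacter.LFunction χ ((1 + δ : ℝ) : ℂ) -
      DirichletCharacter.LFunction χ 1‖ ≤ C / L ^ 2 := by
    refine ((hC p hp χ hχ).2 (1 + δ) (by linarith) (by linarith)).trans ?_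
    have h1 : Real.log p ≤ L := Real.log_le_log (by exact_mod_cast hp.pos) (by exact_mod_cast hpx)
    have h2 : 0 ≤ Real.log p := Real.log_nonneg (by exact_mod_cast hp.one_le)
    calc C * (1 + δ - 1) * Real.log p ^ 2 ≤ C * (1 + δ - 1) * L ^ 2 := by
          have : 0 ≤ 1 + δ - 1 := by linarith
          gcongr
      _ = C / L ^ 2 := by rw [hδ]; field_simp; ring
  have hmain := main χ (δ := δ) (η := η') (r := C / L ^ 2) (C1 := C1) hδ0 hY3 hYZ (hC1 Y hY3)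
    (by linarith) hη1 (hE2 p hp hpx hpE χ hχ) hr (by linarith)
  refine (le_of_eq ?_).trans (hmain.trans ?_)
  · congr 2
    refine sum_congr rfl fun q _ => ?_
    rw [zz_one]
  · linarith

end Pool.Agent.K1H30.RG
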